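import Mathlib

/-!
# Random colourings with few bad extensions

`Sys χ R I`: the colours `χ R u` of the elements `u` of `I` have sum zero, or some colour is missing.
There is a colouring `χ` such that for all sets `R`, `I` with `|I| ≥ h` there are few elements
`v ∉ R` for which `Sys χ (R ∪ {v}) I`.
-/

set_option autoImplicit false

open Finset

namespace Pool.Agent.P8H39.CoDeg

/-- the colours of the elements of `I` in the colouring `χ R` have sum zero, or a colour is missing -/
def Sys {n m : ℕ} (χ : Finset (Fin n) → Fin n → ZMod m) (R I : Finset (Fin n)) : Prop :=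
  ∑ u ∈ I, χ R u = 0 ∨ ∃ z : ZMod m, ∀ u ∈ I, χ R u ≠ z

/-- the functions for which the sum over `I` is zero or a colour is missing on `I` -/
def EE {n m : ℕ} (I : Finset (Fin n)) (f : Fin n → ZMod m) : Prop :=
  ∑ u ∈ I, f u = 0 ∨ ∃ z : ZMod m, ∀ u ∈ I, f u ≠ z

open Classical in
theorem card_sum {n m : ℕ} [NeZero m] {I : Finset (Fin n)} (hI : I.Nonempty) :
    (univ.filter fun f : Fin n → ZMod m => ∑ u ∈ I, f u = 0).card * m ≤ m ^ n := by
  obtain ⟨u0, hu0⟩ := hI
  have h1 : (univ.filter fun f : Fin n → ZMod m => ∑ u ∈ I, f u = 0).card * m =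
      ((univ.filter fun f : Fin n → ZMod m => ∑ u ∈ I, f u = 0) ×ˢ (univ : Finset (ZMod m))).card := by
    rw [card_product, card_univ, ZMod.card]
  have h2 : m ^ n = (univ : Finset (Fin n → ZMod m)).card := by
    rw [card_univ, Fintype.card_fun, ZMod.card, Fintype.card_fin]
  rw [h1, h2]
  refine card_le_card_of_injOn (fun p => Function.update p.1 u0 (p.1 u0 + p.2)) (fun _ _ => by simp) ?_
  rintro ⟨f, t⟩ hf ⟨g, s⟩ hg hfg
  simp only [coe_product, Set.mem_prod, coe_filter, mem_univ, true_and, Set.mem_ofPred_eq, coe_univ,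
    Set.mem_univ, and_true] at hf hg
  simp only at hfg
  have key : ∀ (f : Fin n → ZMod m) (t : ZMod m), ∑ u ∈ I, f u = 0 →
      ∑ u ∈ I, Function.update f u0 (f u0 + t) u = t := by
    intro f t h0
    rw [sum_update_of_mem hu0]
    have : ∑ u ∈ I, f u = f u0 + ∑ u ∈ I \ {u0}, f u := by
      rw [← add_sum_erase I f hu0, sdiff_singleton_eq_erase]
    rw [this] at h0
    calc f u0 + t + ∑ u ∈ I \ {u0}, f u = (f u0 + ∑ u ∈ I \ {u0}, f u) + t := by ring
      _ = t := by rw [h0, zero_add]
  have hts : t = s := by rw [← key f t hf, ← key g s hg, hfg]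
  subst hts
  have hfg' : f = g := by
    funext u
    by_cases hu : u = u0
    · subst hu
      have := congrFun hfg u
      simp only [Function.update_self] at this
      exact add_right_cancel this
    · have := congrFun hfg u
      simp only [Function.update_of_ne hu] at this
      exact this
  rw [hfg']

open Classical in
theorem card_miss {n m : ℕ} [NeZero m] (I : Finset (Fin n)) (z : ZMod m) :
    (univ.filter fun f : Fin n → ZMod m => ∀ u ∈ I, f u ≠ z).card =
      (m - 1) ^ I.card * m ^ (n - I.card) := by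
  have h1 : (univ.filter fun f : Fin n → ZMod m => ∀ u ∈ I, f u ≠ z) =
      Fintype.piFinset (fun u => if u ∈ I then (univ : Finset (ZMod m)).erase z else univ) := by
    ext f
    simp only [mem_filter, mem_univ, true_and, Fintype.mem_piFinset]
    constructor
    · intro h u
      split_ifs with hu
      · exact mem_erase.mpr ⟨h u hu, mem_univ _⟩
      · exact mem_univ _
    · intro h u hu
      have := h u
      rw [if_pos hu, mem_erase] at this
      exact this.1
  rw [h1, Fintype.card_piFinset]
  have h2 : ∀ u ∈ (univ : Finset (Fin n)), (if u ∈ I then (univ : Finset (ZMod m)).erase z else univ).card =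
      if u ∈ I then m - 1 else m := by
    intro u _
    split_ifs
    · rw [card_erase_of_mem (mem_univ _), card_univ, ZMod.card]
    · rw [card_univ, ZMod.card]
  rw [prod_congr rfl h2, prod_ite, prod_const, prod_const]
  have h3 : (univ.filter fun u => u ∈ I) = I := by ext; simp
  have h4 : (univ.filter fun u => u ∉ I) = Iᶜ := by ext; simp
  rw [h3, h4, card_compl, Fintype.card_fin]

open Classical in
theorem card_EE {n K h : ℕ} [NeZero (2 * K)] (hK : 0 < K) (hh : 0 < h)
    (hKh : 2 * K * (2 * K) * (2 * K - 1) ^ h ≤ (2 * K) ^ h)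
    {I : Finset (Fin n)} (hI : h ≤ I.card) :
    (univ.filter fun f : Fin n → ZMod (2 * K) => EE I f).card * K ≤ (2 * K) ^ n := by
  have hIn : I.card ≤ n := by simpa using card_le_univ I
  have h1 := card_sum (n := n) (m := 2 * K) (I := I) (card_pos.mp (by omega))
  have h2 : ∀ z : ZMod (2 * K), (univ.filter fun f : Fin n → ZMod (2 * K) => ∀ u ∈ I, f u ≠ z).card *
      (2 * K * (2 * K)) ≤ (2 * K) ^ n := by
    intro z
    rw [card_miss]
    calc (2 * K - 1) ^ I.card * (2 * K) ^ (n - I.card) * (2 * K * (2 * K))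
        = (2 * K - 1) ^ (I.card - h) * (2 * K * (2 * K) * (2 * K - 1) ^ h) *
            (2 * K) ^ (n - I.card) := by
          have : (2 * K - 1) ^ I.card = (2 * K - 1) ^ (I.card - h) * (2 * K - 1) ^ h := by
            rw [← pow_add, Nat.sub_add_cancel hI]
          rw [this]; ring
      _ ≤ (2 * K) ^ (I.card - h) * (2 * K) ^ h * (2 * K) ^ (n - I.card) := by
          gcongr
          omega
      _ = (2 * K) ^ n := by
          rw [← pow_add, ← pow_add]
          congr 1
          omega
  have h3 : (univ.filter fun f : Fin n → ZMod (2 * K) => EE I f) ⊆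
      (univ.filter fun f : Fin n → ZMod (2 * K) => ∑ u ∈ I, f u = 0) ∪
        (univ : Finset (ZMod (2 * K))).biUnion
          (fun z => univ.filter fun f : Fin n → ZMod (2 * K) => ∀ u ∈ I, f u ≠ z) := by
    intro f hf
    rw [mem_filter] at hf
    rw [mem_union]
    rcases hf.2 with h | ⟨z, hz⟩
    · exact Or.inl (mem_filter.mpr ⟨mem_univ _, h⟩)
    · exact Or.inr (mem_biUnion.mpr ⟨z, mem_univ _, mem_filter.mpr ⟨mem_univ _, hz⟩⟩)
  have h4 := (card_le_card h3).trans ((card_union_le _ _).trans (Nat.add_le_add_left card_biUnion_le _))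
  have h5 : (∑ z : ZMod (2 * K), (univ.filter fun f : Fin n → ZMod (2 * K) => ∀ u ∈ I, f u ≠ z).card) *
      (2 * K) ≤ (2 * K) ^ n := by
    have h6 : (∑ z : ZMod (2 * K), (univ.filter fun f : Fin n → ZMod (2 * K) => ∀ u ∈ I, f u ≠ z).card) *
      (2 * K * (2 * K)) ≤ (2 * K) * (2 * K) ^ n := by
      rw [sum_mul]
      calc ∑ z : ZMod (2 * K), (univ.filter fun f : Fin n → ZMod (2 * K) => ∀ u ∈ I, f u ≠ z).card *
            (2 * K * (2 * K)) ≤ ∑ _z : ZMod (2 * K), (2 * K) ^ n := sum_le_sum fun z _ => h2 z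
        _ = (2 * K) * (2 * K) ^ n := by rw [sum_const, card_univ, ZMod.card, smul_eq_mul]
    have h7 : (2 * K) * ((∑ z : ZMod (2 * K), (univ.filter fun f : Fin n → ZMod (2 * K) => ∀ u ∈ I, f u ≠ z).card) *
      (2 * K)) ≤ (2 * K) * (2 * K) ^ n := by
      calc _ = (∑ z : ZMod (2 * K), (univ.filter fun f : Fin n → ZMod (2 * K) => ∀ u ∈ I, f u ≠ z).card) *
      (2 * K * (2 * K)) := by ring
        _ ≤ _ := h6
    exact Nat.le_of_mul_le_mul_left h7 (by omega)
  have h8 := Nat.mul_le_mul_right (2 * K) h4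
  rw [add_mul] at h8
  have h9 : 2 * ((univ.filter fun f : Fin n → ZMod (2 * K) => EE I f).card * K) ≤ 2 * (2 * K) ^ n := by
    calc _ = (univ.filter fun f : Fin n → ZMod (2 * K) => EE I f).card * (2 * K) := by ring
      _ ≤ _ := h8
      _ ≤ (2 * K) ^ n + (2 * K) ^ n := Nat.add_le_add h1 h5
      _ = _ := by ring
  exact Nat.le_of_mul_le_mul_left h9 (by norm_num)

open Classical in
/-- all extensions by elements of `T` are bad: few colourings -/
theorem card_bad {n m K t : ℕ} [NeZero m] (R I T : Finset (Fin n)) (hT : T.card = t)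
    (hd : Disjoint T R)
    (hE : (univ.filter fun f : Fin n → ZMod m => EE I f).card * K ≤ m ^ n) :
    (univ.filter fun χ : Finset (Fin n) → Fin n → ZMod m => ∀ v ∈ T, Sys χ (insert v R) I).card * K ^ t
      ≤ Fintype.card (Finset (Fin n) → Fin n → ZMod m) := by
  set Q : Finset (Finset (Fin n)) := T.image (fun v => insert v R) with hQ
  have hQc : Q.card = t := by
    rw [hQ, card_image_of_injOn, hT]
    intro v hv w hw hvw
    simp only at hvw
    have : v ∈ insert w R := hvw ▸ mem_insert_self v R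
    rcases mem_insert.mp this with h | h
    · exact h
    · exact absurd h (Finset.disjoint_left.mp hd hv)
  have h1 : (univ.filter fun χ : Finset (Fin n) → Fin n → ZMod m => ∀ v ∈ T, Sys χ (insert v R) I) =
      Fintype.piFinset (fun q => if q ∈ Q then (univ.filter fun f : Fin n → ZMod m => EE I f)
        else univ) := by
    ext χ
    simp only [mem_filter, mem_univ, true_and, Fintype.mem_piFinset]
    constructor
    · intro h q
      split_ifs with hq
      · rw [hQ, mem_image] at hq
        obtain ⟨v, hv, rfl⟩ := hq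
        exact mem_filter.mpr ⟨mem_univ _, h v hv⟩
      · exact mem_univ _
    · intro h v hv
      have := h (insert v R)
      rw [if_pos (mem_image_of_mem _ hv), mem_filter] at this
      exact this.2
  rw [h1, Fintype.card_piFinset]
  have h2 : ∀ q ∈ (univ : Finset (Finset (Fin n))),
      (if q ∈ Q then (univ.filter fun f : Fin n → ZMod m => EE I f) else univ).card =
      if q ∈ Q then (univ.filter fun f : Fin n → ZMod m => EE I f).card else m ^ n := by
    intro q _
    split_ifs
    · rfl
    · rw [card_univ, Fintype.card_fun, ZMod.card, Fintype.card_fin]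
  rw [prod_congr rfl h2, prod_ite, prod_const, prod_const]
  have h3 : (univ.filter fun q => q ∈ Q) = Q := by ext; simp
  have h4 : (univ.filter fun q => q ∉ Q) = Qᶜ := by ext; simp
  rw [h3, h4, hQc, card_compl, hQc]
  have h5 : Fintype.card (Finset (Fin n) → Fin n → ZMod m) = (m ^ n) ^ t *
      (m ^ n) ^ (Fintype.card (Finset (Fin n)) - t) := by
    rw [Fintype.card_fun, Fintype.card_fun, ZMod.card, Fintype.card_fin, ← pow_add,
      Nat.add_sub_cancel' (by rw [← hQc]; exact card_le_univ Q)]
  rw [h5]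
  calc _ = ((univ.filter fun f : Fin n → ZMod m => EE I f).card * K) ^ t *
        (m ^ n) ^ (Fintype.card (Finset (Fin n)) - t) := by rw [mul_pow]; ring
    _ ≤ _ := Nat.mul_le_mul_right _ (Nat.pow_le_pow_left hE t)

open Classical in
/-- a good colouring -/
theorem exists_good {n K h t : ℕ} (hK : 0 < K) (hh : 0 < h)
    (hKh : 2 * K * (2 * K) * (2 * K - 1) ^ h ≤ (2 * K) ^ h) (ht : 8 ^ n < K ^ t) :
    ∃ χ : Finset (Fin n) → Fin n → ZMod (2 * K), ∀ R I : Finset (Fin n), h ≤ I.card →
      (univ.filter fun v => v ∉ R ∧ Sys χ (insert v R) I).card < t := by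
  have : NeZero (2 * K) := ⟨by omega⟩
  by_contra hcon
  push Not at hcon
  set Ω := Finset (Fin n) → Fin n → ZMod (2 * K) with hΩ
  set ι := Finset (Fin n) × Finset (Fin n) × Finset (Fin n) with hι
  let P : ι → Prop := fun p => h ≤ p.2.1.card ∧ p.2.2.card = t ∧ Disjoint p.2.2 p.1
  have hcov : (univ : Finset Ω) ⊆ (univ.filter P).biUnion
      (fun p => univ.filter fun χ : Ω => ∀ v ∈ p.2.2, Sys χ (insert v p.1) p.2.1) := by
    intro χ _
    obtain ⟨R, I, hI, hc⟩ := hcon χ
    obtain ⟨T, hT, hTc⟩ := exists_subset_card_eq hc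
    rw [mem_biUnion]
    refine ⟨(R, I, T), mem_filter.mpr ⟨mem_univ _, hI, hTc, ?_⟩, mem_filter.mpr ⟨mem_univ _, ?_⟩⟩
    · rw [Finset.disjoint_left]
      intro v hv
      exact (mem_filter.mp (hT hv)).2.1
    · intro v hv
      exact (mem_filter.mp (hT hv)).2.2
  have h1 := (card_le_card hcov).trans card_biUnion_le
  rw [card_univ] at h1
  have h2 := Nat.mul_le_mul_right (K ^ t) h1
  rw [sum_mul] at h2
  have h3 : ∑ p ∈ univ.filter P, (univ.filter fun χ : Ω => ∀ v ∈ p.2.2, Sys χ (insert v p.1) p.2.1).card *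
      K ^ t ≤ ∑ _p ∈ univ.filter P, Fintype.card Ω := by
    refine sum_le_sum fun p hp => ?_
    rw [mem_filter] at hp
    obtain ⟨-, hp1, hp2, hp3⟩ := hp
    exact card_bad p.1 p.2.1 p.2.2 hp2 hp3 (card_EE hK hh hKh hp1)
  rw [sum_const, smul_eq_mul] at h3
  have h4 : (univ.filter P).card ≤ 8 ^ n := by
    refine (card_le_univ _).trans (le_of_eq ?_)
    have : Fintype.card (Finset (Fin n) × Finset (Fin n) × Finset (Fin n)) = 8 ^ n := by
      rw [Fintype.card_prod, Fintype.card_prod, Fintype.card_finset, Fintype.card_fin, ← mul_pow,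
        ← mul_pow]
      norm_num
    exact this
  have h5 : Fintype.card Ω * K ^ t ≤ 8 ^ n * Fintype.card Ω :=
    h2.trans (h3.trans (Nat.mul_le_mul_right _ h4))
  have h6 : 0 < Fintype.card Ω := Fintype.card_pos
  have h7 : K ^ t ≤ 8 ^ n := by
    rw [mul_comm] at h5
    exact Nat.le_of_mul_le_mul_right h5 h6
  omega

end Pool.Agent.P8H39.CoDeg
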