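import Pool.Agent.P8H39.CoDeg.Label
import Pool.Agent.P8H39.CoDeg.Rand

/-!
# The construction

The vertices are divided into `l` classes. A `k`-set `U` is bad if for some class `c` which serves the
type of `U` with one more element of class `c`, the elements of `U` in the class `c` form a set of
the system given by the other elements. Every `(k+1)`-set contains a bad `k`-set, and every
`(k-1)`-set is contained in few bad `k`-sets.
-/

set_option autoImplicit false

open Finset

namespace Pool.Agent.P8H39.CoDeg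

/-- the class of a vertex -/
def cls (l : ℕ) {n : ℕ} (v : Fin n) : ℕ := v.val % l

/-- the elements of class `c` -/
def inn (l c : ℕ) {n : ℕ} (S : Finset (Fin n)) : Finset (Fin n) := S.filter fun v => cls l v = c

/-- the elements of the other classes -/
def out (l c : ℕ) {n : ℕ} (S : Finset (Fin n)) : Finset (Fin n) := S.filter fun v => cls l v ≠ c

/-- the type of a set of vertices -/
def typ (l : ℕ) {n : ℕ} (S : Finset (Fin n)) : ℕ → ℕ := fun c => (inn l c S).card

/-- the bad sets -/
def Bad (l h : ℕ) {n m : ℕ} (χ : Finset (Fin n) → Fin n → ZMod m) (U : Finset (Fin n)) : Prop :=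
  ∃ c < l, Serve l h (addOne (typ l U) c) c ∧ Sys χ (out l c U) (inn l c U)

theorem typ_insert (l : ℕ) {n : ℕ} {A : Finset (Fin n)} {v : Fin n} (hv : v ∉ A) :
    typ l (insert v A) = addOne (typ l A) (cls l v) := by
  funext c
  unfold typ addOne inn
  rw [filter_insert]
  split_ifs with h1 h2 h2
  · rw [card_insert_of_notMem (by simp [hv])]
  · exact absurd h1.symm h2
  · exact absurd h2.symm h1
  · rfl

theorem sum_typ (l : ℕ) (hl : 0 < l) {n : ℕ} (S : Finset (Fin n)) :
    ∑ c ∈ range l, typ l S c = S.card := by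
  unfold typ inn
  exact (card_eq_sum_card_fiberwise (f := fun v => cls l v) (t := range l)
    (fun v _ => by simpa [cls] using Nat.mod_lt _ hl)).symm

theorem pre_typ (l h : ℕ) (hl : 0 < l) {n : ℕ} (S : Finset (Fin n)) :
    S.card ≤ pre h (typ l S) l + l * h := by
  rw [← sum_typ l hl S]
  unfold pre
  calc ∑ c ∈ range l, typ l S c ≤ ∑ c ∈ range l, ((typ l S c - h) + h) :=
        sum_le_sum fun c _ => by omega
    _ = ∑ c ∈ range l, (typ l S c - h) + l * h := by
        rw [sum_add_distrib, sum_const, card_range, smul_eq_mul]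

/-- the system hits all sets with one more element -/
theorem sys_hit {n m : ℕ} (χ : Finset (Fin n) → Fin n → ZMod m) (R I : Finset (Fin n))
    (hI : I.Nonempty) : ∃ u ∈ I, Sys χ R (I.erase u) := by
  by_cases hz : ∃ z : ZMod m, ∀ u ∈ I, χ R u ≠ z
  · obtain ⟨z, hz⟩ := hz
    obtain ⟨u, hu⟩ := hI
    exact ⟨u, hu, Or.inr ⟨z, fun w hw => hz w (mem_of_mem_erase hw)⟩⟩
  · push Not at hz
    obtain ⟨u, hu, he⟩ := hz (∑ w ∈ I, χ R w)
    refine ⟨u, hu, Or.inl ?_⟩
    have := add_sum_erase I (χ R) hu
    rw [he] at this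
    exact left_eq_add.mp this.symm

/-- every set with more than `l h` elements contains a bad set with one element less -/
theorem bad_hit {l h : ℕ} (hl : 0 < l) {n m : ℕ} (χ : Finset (Fin n) → Fin n → ZMod m)
    (S : Finset (Fin n)) (hS : l * h < S.card) : ∃ u ∈ S, Bad l h χ (S.erase u) := by
  have h1 : 0 < pre h (typ l S) l := by
    have := pre_typ l h hl S
    omega
  obtain ⟨c, hc, hs⟩ := exists_serve hl h1
  have h2 := serve_gt hs
  have h3 : (inn l c S).Nonempty := by
    rw [← card_pos]
    unfold typ at h2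
    omega
  obtain ⟨u, hu, hsys⟩ := sys_hit χ (out l c S) (inn l c S) h3
  have hu' := hu
  unfold inn at hu'
  rw [mem_filter] at hu'
  obtain ⟨huS, huc⟩ := hu'
  refine ⟨u, huS, c, hc, ?_, ?_⟩
  · have h4 := typ_insert l (notMem_erase u S)
    rw [insert_erase huS, huc] at h4
    rw [← h4]
    exact hs
  · have h5 : out l c (S.erase u) = out l c S := by
      ext w
      unfold out
      simp only [mem_filter, mem_erase]
      constructor
      · rintro ⟨⟨-, hw⟩, hwc⟩
        exact ⟨hw, hwc⟩
      · rintro ⟨hw, hwc⟩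
        exact ⟨⟨fun h => hwc (h ▸ huc), hw⟩, hwc⟩
    have h6 : inn l c (S.erase u) = (inn l c S).erase u := by
      unfold inn
      rw [filter_erase]
    rw [h5, h6]
    exact hsys

theorem class_card (l : ℕ) (n c : ℕ) :
    ((univ : Finset (Fin n)).filter fun v => cls l v = c).card ≤ n / l + 1 := by
  have h1 : ((univ : Finset (Fin n)).filter fun v => cls l v = c).card ≤
      (range (n / l + 1)).card := by
    refine card_le_card_of_injOn (fun v => v.val / l) ?_ ?_
    · intro v _
      simp only [coe_range, Set.mem_Iio]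
      exact Nat.lt_succ_of_le (Nat.div_le_div_right v.isLt.le)
    · intro v hv w hw hvw
      simp only [coe_filter, mem_univ, true_and, Set.mem_ofPred_eq] at hv hw
      simp only at hvw
      unfold cls at hv hw
      have e1 := Nat.div_add_mod v.val l
      have e2 := Nat.div_add_mod w.val l
      rw [hvw, hv] at e1
      rw [hw] at e2
      exact Fin.ext (e1.symm.trans e2)
  rwa [card_range] at h1

open Classical in
/-- few bad extensions -/
theorem bad_ext {l h : ℕ} (hl : 0 < l) {n m t : ℕ} (χ : Finset (Fin n) → Fin n → ZMod m)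
    (hχ : ∀ R I : Finset (Fin n), h ≤ I.card →
      (univ.filter fun v => v ∉ R ∧ Sys χ (insert v R) I).card < t)
    (A : Finset (Fin n)) (hA : l * (h + 4) ≤ A.card) :
    (univ.filter fun v => v ∉ A ∧ Bad l h χ (insert v A)).card ≤ 2 * (n / l + 1) + l * t := by
  set s : Finset ℕ := (range l).filter fun c => Serve l h (addOne (addOne (typ l A) c) c) c with hs
  have hs2 : s.card ≤ 2 := by
    refine serve_card (l := l) (h := h) (a := typ l A) ?_ s ?_
    · have h1 := pre_typ l h hl A
      have h2 : l * (h + 4) = l * h + 4 * l := by ring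
      omega
    · intro c hc
      rw [hs, mem_filter, mem_range] at hc
      exact hc
  have hsub : (univ.filter fun v => v ∉ A ∧ Bad l h χ (insert v A)) ⊆
      (s.biUnion fun c => (univ : Finset (Fin n)).filter fun v => cls l v = c) ∪
      ((range l).biUnion fun c => if h ≤ (inn l c A).card then
        univ.filter fun v => v ∉ out l c A ∧ Sys χ (insert v (out l c A)) (inn l c A) else ∅) := by
    intro v hv
    rw [mem_filter] at hv
    obtain ⟨-, hvA, c, hc, hserve, hsys⟩ := hv
    rw [mem_union]
    rw [typ_insert l hvA] at hserve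
    by_cases hvc : cls l v = c
    · left
      rw [mem_biUnion]
      refine ⟨c, ?_, mem_filter.mpr ⟨mem_univ _, hvc⟩⟩
      rw [hs, mem_filter, mem_range]
      rw [hvc] at hserve
      exact ⟨hc, hserve⟩
    · right
      rw [mem_biUnion]
      refine ⟨c, mem_range.mpr hc, ?_⟩
      have h1 := serve_gt hserve
      have h2 : h ≤ (inn l c A).card := by
        unfold addOne typ at h1
        rw [if_pos rfl, if_neg (fun h => hvc h.symm)] at h1
        omega
      rw [if_pos h2, mem_filter]
      refine ⟨mem_univ _, ?_, ?_⟩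
      · unfold out
        rw [mem_filter]
        exact fun h => hvA h.1
      · have h3 : inn l c (insert v A) = inn l c A := by
          unfold inn
          rw [filter_insert, if_neg hvc]
        have h4 : out l c (insert v A) = insert v (out l c A) := by
          unfold out
          rw [filter_insert, if_pos hvc]
        rw [h3, h4] at hsys
        exact hsys
  refine (card_le_card hsub).trans ((card_union_le _ _).trans (Nat.add_le_add ?_ ?_))
  · refine card_biUnion_le.trans ((sum_le_sum fun c _ => class_card l n c).trans ?_)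
    rw [sum_const, smul_eq_mul]
    exact Nat.mul_le_mul_right _ hs2
  · refine card_biUnion_le.trans ?_
    calc _ ≤ ∑ _c ∈ range l, t := by
          refine sum_le_sum fun c _ => ?_
          split_ifs with h1
          · exact (hχ (out l c A) (inn l c A) h1).le
          · simp
      _ = l * t := by rw [sum_const, card_range, smul_eq_mul]

/-- parameters: `h` for given `K` -/
theorem exists_h (K : ℕ) (hK : 0 < K) : ∃ h : ℕ, 0 < h ∧
    2 * K * (2 * K) * (2 * K - 1) ^ h ≤ (2 * K) ^ h := by
  have hK' : (1 : ℝ) ≤ K := by exact_mod_cast hK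
  have h0 : (0 : ℝ) ≤ (2 * K - 1) / (2 * K) := div_nonneg (by linarith) (by linarith)
  have h1 : ((2 * K - 1) / (2 * K) : ℝ) < 1 := by
    rw [div_lt_one (by linarith)]; linarith
  have h2 := tendsto_pow_atTop_nhds_zero_of_lt_one h0 h1
  have h3 : ∀ᶠ n : ℕ in Filter.atTop, ((2 * K - 1) / (2 * K) : ℝ) ^ n < 1 / (2 * K * (2 * K)) :=
    h2.eventually_lt_const (by positivity)
  obtain ⟨h, hh, hh0⟩ := (h3.and (Filter.eventually_gt_atTop 0)).exists
  refine ⟨h, hh0, ?_⟩
  rw [div_pow, div_lt_div_iff₀ (by positivity) (by positivity), one_mul] at hh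
  have h4 : ((2 * K * (2 * K) * (2 * K - 1) ^ h : ℕ) : ℝ) ≤ ((2 * K) ^ h : ℕ) := by
    push_cast [Nat.cast_sub (show 1 ≤ 2 * K by omega)]
    linarith
  exact_mod_cast h4

open Classical in
/-- **The construction.** For every `l ≥ 1` there is `k₀` such that for all `k ≥ k₀` and all `n ≥ 1`
there is a family of bad `k`-sets on `n` points that meets every `(k+1)`-set in at least one
`k`-subset, and every `(k-1)`-set has at most `2 (n / l + 1) + l (n / l ^ 2 + 1)` bad extensions. -/
theorem construction (l : ℕ) (hl : 0 < l) : ∃ k₀ : ℕ, ∀ k : ℕ, k₀ ≤ k → ∀ n : ℕ, 0 < n →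
    ∃ B : Finset (Finset (Fin n)), (∀ e ∈ B, e.card = k) ∧
      (∀ S : Finset (Fin n), S.card = k + 1 → ∃ u ∈ S, S.erase u ∈ B) ∧
      (∀ A : Finset (Fin n), A.card + 1 = k →
        (univ.filter fun v => v ∉ A ∧ insert v A ∈ B).card ≤
          2 * (n / l + 1) + l * (n / l ^ 2 + 1)) := by
  set K := 9 ^ (l ^ 2) with hK
  have hK0 : 0 < K := by positivity
  obtain ⟨h, hh, hKh⟩ := exists_h K hK0
  refine ⟨l * (h + 4) + 1, fun k hk n hn => ?_⟩
  have ht : 8 ^ n < K ^ (n / l ^ 2 + 1) := by
    rw [hK, ← pow_mul]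
    have h1 : n < l ^ 2 * (n / l ^ 2 + 1) := Nat.lt_mul_div_succ n (by positivity)
    calc 8 ^ n < 9 ^ n := Nat.pow_lt_pow_left (by norm_num) (by omega)
      _ ≤ 9 ^ (l ^ 2 * (n / l ^ 2 + 1)) := Nat.pow_le_pow_right (by norm_num) h1.le
  obtain ⟨χ, hχ⟩ := exists_good (n := n) hK0 hh hKh ht
  refine ⟨univ.filter fun U => U.card = k ∧ Bad l h χ U, ?_, ?_, ?_⟩
  · intro e he
    exact (mem_filter.mp he).2.1
  · intro S hS
    have h1 : l * h < S.card := by
      rw [hS]
      have : l * (h + 4) = l * h + 4 * l := by ring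
      omega
    obtain ⟨u, hu, hb⟩ := bad_hit hl χ S h1
    refine ⟨u, hu, mem_filter.mpr ⟨mem_univ _, ?_, hb⟩⟩
    rw [card_erase_of_mem hu, hS, Nat.add_sub_cancel]
  · intro A hA
    refine le_trans (card_le_card ?_) (bad_ext hl χ hχ A (by omega))
    intro v hv
    rw [mem_filter] at hv ⊢
    exact ⟨mem_univ _, hv.2.1, (mem_filter.mp hv.2.2).2.2⟩

end Pool.Agent.P8H39.CoDeg
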