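import Mathlib

/-!
# A labelling of compositions

`x : ℕ → ℕ` is a type (number of elements in each of the classes `0, …, l - 1`). `Serve l h x c` says
that the class `c` serves the type `x`. Every type of large total has a serving class, a serving
class has more than `h` elements, and for every type `a` at most two classes `c` serve the type
obtained from `a` by adding two elements of class `c`.
-/

set_option autoImplicit false

open Finset

namespace Pool.Agent.P8H39.CoDeg

/-- add one element of class `c` -/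
def addOne (x : ℕ → ℕ) (c : ℕ) : ℕ → ℕ := fun j => x j + if j = c then 1 else 0

/-- total excess over `h` of the classes before `c` -/
def pre (h : ℕ) (x : ℕ → ℕ) (c : ℕ) : ℕ := ∑ j ∈ range c, (x j - h)

/-- the phase -/
def psi (l : ℕ) (x : ℕ → ℕ) : ℕ := (∑ j ∈ range l, (2 * l - j) * x j) % (2 * l)

/-- the class `c` serves the type `x` -/
def Serve (l h : ℕ) (x : ℕ → ℕ) (c : ℕ) : Prop :=
  pre h x c * (2 * l) ≤ psi l x * pre h x l ∧ psi l x * pre h x l < pre h x (c + 1) * (2 * l)

theorem pre_succ (h : ℕ) (x : ℕ → ℕ) (c : ℕ) : pre h x (c + 1) = pre h x c + (x c - h) := by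
  unfold pre; rw [sum_range_succ]

theorem pre_mono (h : ℕ) (x : ℕ → ℕ) {c d : ℕ} (hcd : c ≤ d) : pre h x c ≤ pre h x d :=
  sum_le_sum_of_subset (range_mono hcd)

theorem serve_gt {l h : ℕ} {x : ℕ → ℕ} {c : ℕ} (hs : Serve l h x c) : h + 1 ≤ x c := by
  by_contra hcon
  have h1 : pre h x (c + 1) = pre h x c := by rw [pre_succ]; omega
  have h2 := hs.1
  have h3 := hs.2
  rw [h1] at h3
  omega

theorem exists_serve {l h : ℕ} (hl : 0 < l) {x : ℕ → ℕ} (hx : 0 < pre h x l) :
    ∃ c < l, Serve l h x c := by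
  classical
  have hpsi : psi l x < 2 * l := Nat.mod_lt _ (by omega)
  have hlast : psi l x * pre h x l < pre h x l * (2 * l) := by
    rw [mul_comm (pre h x l)]
    exact Nat.mul_lt_mul_of_pos_right hpsi hx
  -- least `c` with `psi * tot < pre (c+1) * 2l`
  have hex : ∃ c, psi l x * pre h x l < pre h x (c + 1) * (2 * l) :=
    ⟨l - 1, by rw [Nat.sub_add_cancel hl]; exact hlast⟩
  refine ⟨Nat.find hex, ?_, ?_, Nat.find_spec hex⟩
  · have : Nat.find hex ≤ l - 1 := Nat.find_min' hex (by rw [Nat.sub_add_cancel hl]; exact hlast)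
    omega
  · rcases Nat.eq_zero_or_pos (Nat.find hex) with h0 | h0
    · rw [h0]; simp [pre]
    · have h1 := Nat.find_min hex (show Nat.find hex - 1 < Nat.find hex by omega)
      rw [Nat.sub_add_cancel h0] at h1
      omega

theorem pre_addOne_le (h : ℕ) (x : ℕ → ℕ) (c d : ℕ) :
    pre h x d ≤ pre h (addOne x c) d := by
  unfold pre addOne
  exact sum_le_sum fun j _ => by split_ifs <;> omega

theorem pre_addOne_le' (h : ℕ) (x : ℕ → ℕ) (c d : ℕ) :
    pre h (addOne x c) d ≤ pre h x d + 1 := by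
  unfold pre addOne
  calc ∑ j ∈ range d, (x j + (if j = c then 1 else 0) - h)
      ≤ ∑ j ∈ range d, ((x j - h) + if j = c then 1 else 0) :=
        sum_le_sum fun j _ => by split_ifs <;> omega
    _ = ∑ j ∈ range d, (x j - h) + ∑ j ∈ range d, (if j = c then 1 else 0) := sum_add_distrib
    _ ≤ ∑ j ∈ range d, (x j - h) + 1 := by
        gcongr
        rw [sum_ite_eq']
        split_ifs <;> simp

theorem pre_addOne_eq (h : ℕ) (x : ℕ → ℕ) {c d : ℕ} (hd : d ≤ c) :
    pre h (addOne x c) d = pre h x d := by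
  unfold pre addOne
  refine sum_congr rfl fun j hj => ?_
  rw [mem_range] at hj
  rw [if_neg (by omega), add_zero]

theorem psi_addOne (l : ℕ) (x : ℕ → ℕ) {c : ℕ} (hc : c < l) :
    psi l (addOne (addOne x c) c) = (psi l x + 2 * (l - c)) % (2 * l) := by
  unfold psi addOne
  have h1 : ∑ j ∈ range l, (2 * l - j) * (x j + (if j = c then 1 else 0) + if j = c then 1 else 0)
      = ∑ j ∈ range l, (2 * l - j) * x j + 2 * (2 * l - c) := by
    have : ∀ j ∈ range l, (2 * l - j) * (x j + (if j = c then 1 else 0) + if j = c then 1 else 0)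
        = (2 * l - j) * x j + if j = c then 2 * (2 * l - c) else 0 := by
      intro j _
      split_ifs with hj
      · subst hj; ring
      · ring
    rw [sum_congr rfl this, sum_add_distrib, sum_ite_eq', if_pos (mem_range.mpr hc)]
  rw [h1]
  have h2 : 2 * (2 * l - c) = 2 * (l - c) + 2 * l := by omega
  rw [h2, ← add_assoc, Nat.add_mod_right, Nat.mod_add_mod]

/-- two serving classes with nearly equal phases are impossible -/
theorem no_two {l h : ℕ} {a : ℕ → ℕ} (ht : 4 * l ≤ pre h a l) {c d : ℕ} (hcd : c < d) (hd : d < l)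
    (hc1 : Serve l h (addOne (addOne a c) c) c) (hd1 : Serve l h (addOne (addOne a d) d) d)
    (hph : psi l (addOne (addOne a d) d) + 2 ≤ psi l (addOne (addOne a c) c)) : False := by
  set pc := psi l (addOne (addOne a c) c) with hpc
  set pd := psi l (addOne (addOne a d) d) with hpd
  have hlt : pc < 2 * l := Nat.mod_lt _ (by omega)
  have e1 := hc1.2
  have e2 := hd1.1
  rw [← hpc] at e1
  rw [← hpd] at e2
  -- bounds
  have b1 : pre h a l ≤ pre h (addOne (addOne a c) c) l :=
    (pre_addOne_le h a c l).trans (pre_addOne_le h _ c l)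
  have b2 : pre h (addOne (addOne a c) c) (c + 1) ≤ pre h a (c + 1) + 2 :=
    (pre_addOne_le' h _ c _).trans (Nat.succ_le_succ (pre_addOne_le' h a c _))
  have b3 : pre h (addOne (addOne a d) d) d = pre h a d := by
    rw [pre_addOne_eq h _ le_rfl, pre_addOne_eq h _ le_rfl]
  have b4 : pre h (addOne (addOne a d) d) l ≤ pre h a l + 2 :=
    (pre_addOne_le' h _ d _).trans (Nat.succ_le_succ (pre_addOne_le' h a d _))
  have b5 : pre h a (c + 1) ≤ pre h a d := pre_mono h a hcd
  set T := pre h a l with hT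
  have f1 : pc * T < (pre h a d + 2) * (2 * l) := by
    calc pc * T ≤ pc * pre h (addOne (addOne a c) c) l := Nat.mul_le_mul_left _ b1
      _ < pre h (addOne (addOne a c) c) (c + 1) * (2 * l) := e1
      _ ≤ (pre h a d + 2) * (2 * l) := Nat.mul_le_mul_right _ (by omega)
  have f2 : pre h a d * (2 * l) ≤ pd * (T + 2) := by
    rw [← b3]
    exact e2.trans (Nat.mul_le_mul_left _ b4)
  have f3 : pd * (T + 2) + 2 * (T + 2) ≤ pc * (T + 2) := by
    rw [← add_mul]; exact Nat.mul_le_mul_right _ hph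
  have f4 : pc * (T + 2) = pc * T + 2 * pc := by ring
  have f5 : (pre h a d + 2) * (2 * l) = pre h a d * (2 * l) + 4 * l := by ring
  omega

/-- at most two classes -/
theorem serve_card {l h : ℕ} {a : ℕ → ℕ} (ht : 4 * l ≤ pre h a l) (s : Finset ℕ)
    (hs : ∀ c ∈ s, c < l ∧ Serve l h (addOne (addOne a c) c) c) : s.card ≤ 2 := by
  classical
  set r := psi l a with hr
  have hr' : ∀ c ∈ s, r < 2 * l := fun c hc => Nat.mod_lt _ (by have := (hs c hc).1; omega)
  -- the two branches
  have key : ∀ p : ℕ → Prop, (∀ c ∈ s, ∀ d ∈ s, p c → p d → c < d →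
      psi l (addOne (addOne a d) d) + 2 ≤ psi l (addOne (addOne a c) c)) →
      (∀ c ∈ s, ∀ d ∈ s, p c → p d → c = d) := by
    intro p hp c hc d hd h1 h2
    rcases lt_trichotomy c d with h3 | h3 | h3
    · exact (no_two ht h3 (hs d hd).1 (hs c hc).2 (hs d hd).2 (hp c hc d hd h1 h2 h3)).elim
    · exact h3
    · exact (no_two ht h3 (hs c hc).1 (hs d hd).2 (hs c hc).2 (hp d hd c hc h2 h1 h3)).elim
  have hA : ∀ c ∈ s, ∀ d ∈ s, 2 * c ≤ r → 2 * d ≤ r → c = d := by
    refine key (fun c => 2 * c ≤ r) ?_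
    intro c hc d hd h1 h2 hcd
    rw [psi_addOne l a (hs c hc).1, psi_addOne l a (hs d hd).1, ← hr]
    have g1 := (hs c hc).1
    have g2 := (hs d hd).1
    have g3 := hr' c hc
    have e1 : r + 2 * (l - c) = (r - 2 * c) + 2 * l := by omega
    have e2 : r + 2 * (l - d) = (r - 2 * d) + 2 * l := by omega
    rw [e1, e2, Nat.add_mod_right, Nat.add_mod_right, Nat.mod_eq_of_lt (by omega),
      Nat.mod_eq_of_lt (by omega)]
    omega
  have hB : ∀ c ∈ s, ∀ d ∈ s, ¬ 2 * c ≤ r → ¬ 2 * d ≤ r → c = d := by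
    refine key (fun c => ¬ 2 * c ≤ r) ?_
    intro c hc d hd h1 h2 hcd
    rw [psi_addOne l a (hs c hc).1, psi_addOne l a (hs d hd).1, ← hr]
    have g1 := (hs c hc).1
    have g2 := (hs d hd).1
    rw [Nat.mod_eq_of_lt (by omega), Nat.mod_eq_of_lt (by omega)]
    omega
  have h1 : (s.filter fun c => 2 * c ≤ r).card ≤ 1 := by
    rw [card_le_one]
    intro c hc d hd
    rw [mem_filter] at hc hd
    exact hA c hc.1 d hd.1 hc.2 hd.2
  have h2 : (s.filter fun c => ¬ 2 * c ≤ r).card ≤ 1 := by
    rw [card_le_one]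
    intro c hc d hd
    rw [mem_filter] at hc hd
    exact hB c hc.1 d hd.1 hc.2 hd.2
  have h3 := card_filter_add_card_filter_not (s := s) (p := fun c => 2 * c ≤ r)
  omega

end Pool.Agent.P8H39.CoDeg
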